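import Pool.Agent.H742.AC6.Final
import Pool.Agent.H742.AC6.P_NOT7
import Pool.Agent.H742.AC6.P_NOTPI

/-!
# MP_917a41_gt : the Borel complexity of `AC_6`

For every `N ≥ 2` the set `AC_6` of all subcontinua of the cube `I^N` which are graphs, 6-arc
connected and not 7-arc connected, is `D_2(Sigma_3)`-hard in `C(I^N)`; in particular it is not a
`Pi_3` set. With the membership of `AC_6` in `D_2(Sigma_3)`, which the problem file lists as known,
`AC_6` is `D_2(Sigma_3)`-complete.

Reduction: to a pair (a sequence `g n ∈ [0,1]` of gaps, a matrix `b M n` of bits) belongs a planar
continuum: three legs converging to a centre; in layer `n` each leg has a finger of width and gap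
`g n` pointing to the next leg, which becomes a rung if `g n = 0` (the layer is then a hexagon);
the outer ends are joined in one vertex, one of the three closing pieces carries the bits. If `g`
has finitely many zeros and each row of `b` has finitely many ones, the continuum is a planar cubic
graph, a nested sequence of hexagons; any six points of it lie on an arc, by an induction over the
layers with a family of connection patterns checked by the kernel; seven points around a path of
three vertices do not. Otherwise it contains infinitely many disjoint triods, or infinitely many
disjoint large connected sets, and is not a graph.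
-/

namespace Pool.Agent.Results.MP_917a41_gt.SixArcConnected

open Pool.Agent.H742.AC6

universe u

theorem result : ∀ N : ℕ, 2 ≤ N → D2Sigma3Hard.{u} (AC N 6) ∧ ¬ IsPi3 (AC N 6) :=
  fun N hN => ⟨hard (t_NOT7 t_N7 t_SIZE) N hN, not_pi3 (t_NOT7 t_N7 t_SIZE) t_NOTPI N hN⟩

end Pool.Agent.Results.MP_917a41_gt.SixArcConnected
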